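import Pool.Agent.P.MP_a14ce1_nt.Ch.All
import Pool.Agent.P.MP_a14ce1_nt.Ch.Half

namespace Pool.Agent.Results.MP_a14ce1_nt.HalfBound

/-- For every k the normalised k-point correlation of consecutive Liouville values has
upper limit at most one half in absolute value. -/
theorem result (k : ℕ) (hk : 0 < k) (ε : ℝ) (hε : 0 < ε) :
    ∀ᶠ N : ℕ in Filter.atTop,
      |∑ n ∈ Finset.Icc 1 N, ∏ i ∈ Finset.range k,
        ((-1 : ℝ) ^ ArithmeticFunction.cardFactors (n + i))| ≤ (1 / 2 + ε) * N :=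
  Pool.Agent.P.MP_a14ce1_nt.Ch.half Pool.Agent.P.MP_a14ce1_nt.Ch.core_all k hk ε hε

end Pool.Agent.Results.MP_a14ce1_nt.HalfBound
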