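import Mathlib
import Pool.Agent.P.MP_af5c07_al.Defs
import Pool.Agent.P.MP_af5c07_al.Iso

/-!
Classification, over an arbitrary field and for arbitrary scalars, of the irreducible
Askey-Wilson modules of polynomial type (finite or countably infinite dimension).
-/

namespace Pool.Agent.Results.MP_af5c07_al.Classification

open Module Pool.Agent.P.MP_af5c07_al

universe u v w

theorem result (K : Type u) [Field K] (p : Par K) :
    (∀ (V : Type v) [AddCommGroup V] [Module K V] (A B : End K V),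
      (AW1 p A B ∧ AW2 p A B ∧ Irr A B ∧ PolyType A B) ↔
        ∃ D : Data K, Sol p D ∧ D.Good ∧ Realizes D A B) ∧
    (∀ D : Data K, ∃ A B : End K ({i : ℤ // D.In i} →₀ K), Realizes D A B) ∧
    (∀ (V : Type v) [AddCommGroup V] [Module K V] (A B : End K V)
      (V' : Type w) [AddCommGroup V'] [Module K V'] (A' B' : End K V') (D E : Data K),
      Sol p D → D.Good → Realizes D A B → Sol p E → E.Good → Realizes E A' B' →
        (Iso A B A' B' ↔ Equi p D E)) := by
  refine ⟨fun V _ _ A B => ⟨?_, ?_⟩, exists_realizes, ?_⟩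
  · rintro ⟨h1, h2, h3, h4⟩
    obtain ⟨D, hD, ⟨H⟩⟩ := exists_sol h4 h3.1 h1 h2
    exact exists_good hD H h3
  · rintro ⟨D, hs, hg, hr⟩
    obtain ⟨H⟩ := hr.ctx
    obtain ⟨h1, h2⟩ := H.AW_of_raw hs.1 p (raw_of_sol hs)
    exact ⟨h1, h2, H.irr_of_good hs hg, hr.polyType hs.1⟩
  · intro V _ _ A B V' _ _ A' B' D E hs hg hr hs' _ hr'
    obtain ⟨H⟩ := hr.ctx
    obtain ⟨H'⟩ := hr'.ctx
    exact iso_iff H H' hs hs' hg

end Pool.Agent.Results.MP_af5c07_al.Classification
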