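import Mathlib
import Pool.Agent.P.MP_baf437_nt.Main

namespace Pool.Agent.Old.Baf437ExceptionalSet

/-- For every `ε > 0` there is `C` such that for all `k ≥ 2` and `X ≥ 1`, at most
`C k^29 X^(13/50 + ε)` integers `m ≤ X` have no prime `p > k` dividing `(m+1)⋯(m+k)` to exactly
the first power. -/
theorem result : ∀ ε : ℝ, 0 < ε → ∃ C : ℝ, ∀ k X : ℕ, 2 ≤ k → 1 ≤ X →
    ({m : ℕ | m ≤ X ∧ ¬ ∃ p : ℕ, p.Prime ∧ k < p ∧
        (∏ i ∈ Finset.Icc 1 k, (m + i)).factorization p = 1}.ncard : ℝ) ≤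
      C * (k : ℝ) ^ 29 * (X : ℝ) ^ (13 / 50 + ε) := by
  classical
  intro ε hε
  obtain ⟨C, C0, hC⟩ := Pool.Agent.P.MP_baf437_nt.exc_count (ε := min ε (1 / 2))
    (lt_min hε (by norm_num))
  refine ⟨2 * C, fun k X hk hX => ?_⟩
  have h := hC k X hk ((Finset.range (X + 1)).filter (Pool.Agent.P.MP_baf437_nt.Exc k))
    fun m hm => by
      rw [Finset.mem_filter, Finset.mem_range] at hm
      exact ⟨by omega, hm.2⟩
  have e : {m : ℕ | m ≤ X ∧ ¬ ∃ p : ℕ, p.Prime ∧ k < p ∧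
      (∏ i ∈ Finset.Icc 1 k, (m + i)).factorization p = 1} =
      ((Finset.range (X + 1)).filter (Pool.Agent.P.MP_baf437_nt.Exc k) : Finset ℕ) := by
    ext m
    simp [Pool.Agent.P.MP_baf437_nt.Exc]
  rw [e, Set.ncard_coe_finset]
  refine h.trans ?_
  have k1 : (2 : ℝ) ≤ k := by exact_mod_cast hk
  have X1 : (1 : ℝ) ≤ X := by exact_mod_cast hX
  have m1 := min_le_left ε (1 / 2)
  have m2 := min_le_right ε (1 / 2)
  have m0 : 0 < min ε (1 / 2) := lt_min hε (by norm_num)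
  have h1 : ((X + k : ℕ) : ℝ) ^ (13 / 50 + min ε (1 / 2)) ≤ (2 * k) * (X : ℝ) ^ (13 / 50 + ε) := by
    calc _ ≤ ((2 * k) * (X : ℝ)) ^ (13 / 50 + min ε (1 / 2)) := by
          gcongr
          push_cast; nlinarith
      _ = (2 * k : ℝ) ^ (13 / 50 + min ε (1 / 2)) * (X : ℝ) ^ (13 / 50 + min ε (1 / 2)) :=
          Real.mul_rpow (by positivity) (by positivity)
      _ ≤ (2 * k : ℝ) ^ (1 : ℝ) * (X : ℝ) ^ (13 / 50 + ε) := by
          gcongr
          · linarith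
          · linarith
      _ = _ := by rw [Real.rpow_one]
  calc _ ≤ C * (k : ℝ) ^ 28 * ((2 * k) * (X : ℝ) ^ (13 / 50 + ε)) := by gcongr
    _ = _ := by ring

end Pool.Agent.Old.Baf437ExceptionalSet
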